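import Pool.Agent.MP_4060c9_nt.H38.REX1
import Pool.Agent.MP_4060c9_nt.H38.RLV
import Pool.Agent.MP_4060c9_nt.H38.RGT
import Pool.Agent.MP_4060c9_nt.H38.RRSX
import Pool.Agent.MP_4060c9_nt.H38.RG
import Pool.Agent.MP_4060c9_nt.H38.RCV
import Pool.Agent.MP_4060c9_nt.H38.RRC
import Pool.Agent.MP_4060c9_nt.H38.RFIN
import Pool.Agent.MP_4060c9_nt.H38.RD
import Pool.Agent.MP_4060c9_nt.H38.RT
import Pool.Agent.MP_4060c9_nt.H38.RST
import Pool.Agent.MP_4060c9_nt.H38.RODE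

/-! Sums of `l ≥ σ k` positive `k`-th powers, `k` large: a lower bound `x ^ (1 - δ)`. -/

set_option autoImplicit false

namespace Pool.Agent.Results.MP_4060c9_nt.SmoothExponent

open Pool.Agent.MP_4060c9_nt.H38

theorem result (δ σ : ℝ) (h0 : 0 < δ) (h1 : δ < 1)
    (hσ : (if 1 / 2 ≤ δ then (Real.log (3 - 2 * δ) - 4 * Real.log δ) / 6
      else (1 / 2 + 2 / 3 * Real.log 2 - δ - Real.log δ) / 2) < σ) :
    ∃ k₀ : ℕ, ∀ k : ℕ, k₀ ≤ k → ∀ l : ℕ, σ * (k : ℝ) ≤ (l : ℝ) →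
      ∀ᶠ x : ℝ in Filter.atTop, x ^ (1 - δ) ≤
        (({n : ℕ | 1 ≤ n ∧ (n : ℝ) ≤ x ∧
          ∃ f : Fin l → ℕ, (∀ i, 0 < f i) ∧ ∑ i, f i ^ k = n}.ncard : ℕ) : ℝ) := by
  have hE := sex sex1
  have hW := ssw (stw (sch hE) sgood stop)
  have hN := ssn (stn (sns hE) (srsx hE) (src srt srm srr (srd su sg scv)) sgood stop)
  have hσ' : tau δ < σ := hσ
  obtain ⟨y, hy, k₀, hk⟩ := sode hW hN δ σ h0 h1 hσ'
  refine ⟨max k₀ 1, fun k h l hl => ?_⟩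
  have k1 : 1 ≤ k := le_of_max_le_right h
  have s0 : 0 < σ := by linarith [(ode_tau hW hN h0 h1).2]
  have l0 : (0 : ℝ) < l := lt_of_lt_of_le (mul_pos s0 (by exact_mod_cast k1)) hl
  exact sfin k l y (1 - δ) k1 (by exact_mod_cast l0) (by linarith) hy
    (hk k (le_of_max_le_left h) l hl)

end Pool.Agent.Results.MP_4060c9_nt.SmoothExponent
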