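import Pool.Agent.MP_4060c9_nt.H98.Nd3
import Pool.Agent.MP_4060c9_nt.H98.Det2
import Pool.Agent.MP_4060c9_nt.H98.Walk2
import Pool.Agent.MP_4060c9_nt.H98.Cnt
import Pool.Agent.MP_4060c9_nt.H98.Blk4
import Pool.Agent.MP_4060c9_nt.H98.Num3
import Pool.Agent.MP_4060c9_nt.H98.Deg3
import Pool.Agent.MP_4060c9_nt.H98.Cd
import Pool.Agent.MP_4060c9_nt.H98.Cone
import Pool.Agent.MP_4060c9_nt.H98.Nn
import Pool.Agent.MP_4060c9_nt.H98.Gw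
import Pool.Agent.MP_4060c9_nt.H98.Der2
import Pool.Agent.MP_4060c9_nt.H98.Loc
import Pool.Agent.MP_4060c9_nt.H98.Neg
import Pool.Agent.MP_4060c9_nt.H98.Gst
import Pool.Agent.MP_4060c9_nt.H98.Wrk
import Pool.Agent.MP_4060c9_nt.H98.DlVdm
import Pool.Agent.MP_4060c9_nt.H98.Lq
import Pool.Agent.MP_4060c9_nt.H98.Lin
import Pool.Agent.MP_4060c9_nt.H98.Ext
import Pool.Agent.MP_4060c9_nt.H98.Circ
import Pool.Agent.MP_4060c9_nt.H98.Vol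
import Pool.Agent.MP_4060c9_nt.H98.Asy

/-! Sums of `l` positive `k`-th powers: the asymptotic formula for `k > (2 - 1 / l) ^ (2 l - 2)`. -/

set_option autoImplicit false

namespace Pool.Agent.Results.MP_4060c9_nt.Threshold

open Pool.Agent.MP_4060c9_nt.H98

theorem result (k l : ℕ) (hl : 1 ≤ l) (hk : (2 * l - 1) ^ (2 * l - 2) < l ^ (2 * l - 2) * k) :
    ∃ δ C : ℝ, 0 < δ ∧ ∀ x : ℝ, 1 ≤ x →
      |(({n : ℕ | 1 ≤ n ∧ (n : ℝ) ≤ x ∧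
          ∃ f : Fin l → ℕ, (∀ i, 0 < f i) ∧ ∑ i, f i ^ k = n}.ncard : ℕ) : ℝ) -
        Real.Gamma (1 + 1 / (k : ℝ)) ^ l / ((l.factorial : ℝ) * Real.Gamma (1 + (l : ℝ) / (k : ℝ))) *
          x ^ ((l : ℝ) / (k : ℝ))| ≤ C * x ^ ((l : ℝ) / (k : ℝ) - δ) := by
  have h0 : 0 < k := Nat.pos_of_ne_zero (by rintro rfl; simp at hk)
  refine asy vol h0 hl (blk4 k l h0 fun σ _ ε h3 h2 => ?_)
  obtain ⟨β, h4, h5, h6⟩ := num3 k l _ h3 h2 hk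
  obtain ⟨C, h7⟩ := nd3 det2 walk2 cnt (deg3 (cd (cone nn pe) (gw der2 loc neg gst wrk dl)
    (lq vdm lin) ext circ)) σ k ε β h0 (by omega) h6
  have : Nonempty σ := Fintype.card_pos_iff.1 (by omega)
  obtain ⟨C', h8⟩ := prim σ k ε β C h4 h7
  exact ⟨β, C', h5, h8⟩

end Pool.Agent.Results.MP_4060c9_nt.Threshold
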